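import Pool.Agent.Lead.TEx5

set_option autoImplicit false

namespace Pool.Agent.Results.MP_5b7d0d_gt.Q1

open Pool.Agent.TEx

theorem result : ∀ ι : Type, Cardinal.mk ι = Cardinal.aleph 1 →
    ¬ ∃ φ : Cp (ι → Bool) → Cp (ι → unitInterval), Continuous φ ∧
      ∀ (f : Cp (ι → Bool)) (s : ι → Bool),
        (φ f).1 (fun i => if s i = true then 1 else 0) = f.1 s := by
  rintro ι hι ⟨φ, hφ, h⟩
  have := unc_of hι
  exact no_ext ι _ (continuous_pi fun i => (continuous_of_discreteTopology
    (f := fun b : Bool => if b = true then (1 : unitInterval) else 0)).comp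
      (continuous_apply i)) φ hφ h

end Pool.Agent.Results.MP_5b7d0d_gt.Q1
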